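import Mathlib
import Pool.Agent.V1181.H1Line

/-!
# A minimizer on the Nehari-type set which is not a solution
-/

set_option autoImplicit false

namespace Pool.Agent.Results.MP_a38b16_an.NonCritical

open Pool.Agent.V1181
open Real Set Filter MeasureTheory Topology

noncomputable section

/-- `‖w‖²_lam = ∫ (w'² + lam w²)` for `w ∈ H¹(ℝ)` with derivative `W`. -/
def Form (lam : ℝ) (w W : ℝ → ℝ) : ℝ := ∫ x, (W x ^ 2 + lam * w x ^ 2)

/-- The energy. -/
def En (μ₁ μ₂ β l₁ l₂ : ℝ) (u U v V : ℝ → ℝ) : ℝ :=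
  (Form l₁ u U + Form l₂ v V) / 2
    - 1 / 4 * ∫ x, (μ₁ * u x ^ 4 + 2 * β * u x ^ 2 * v x ^ 2 + μ₂ * v x ^ 4)

/-- `(u, v)` (with derivatives `U`, `V`) is in the Nehari-type set. -/
def InN (μ₁ μ₂ β l₁ l₂ : ℝ) (u U v V : ℝ → ℝ) : Prop :=
  IsH10 univ u U ∧ IsH10 univ v V ∧ ¬ u =ᵐ[volume] 0 ∧ ¬ v =ᵐ[volume] 0 ∧
  Form l₁ u U = ∫ x, (μ₁ * u x ^ 4 + β * u x ^ 2 * v x ^ 2) ∧
  Form l₂ v V = ∫ x, (μ₂ * v x ^ 4 + β * u x ^ 2 * v x ^ 2)

/-- `(u, v)` is a weak solution of the system. -/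
def IsWeakSol (μ₁ μ₂ β l₁ l₂ : ℝ) (u U v V : ℝ → ℝ) : Prop :=
  (∀ φ Φ : ℝ → ℝ, IsH10 univ φ Φ → ∫ x, (U x * Φ x + l₁ * u x * φ x) =
    ∫ x, (μ₁ * u x ^ 3 + β * u x * v x ^ 2) * φ x) ∧
  (∀ φ Φ : ℝ → ℝ, IsH10 univ φ Φ → ∫ x, (V x * Φ x + l₂ * v x * φ x) =
    ∫ x, (μ₂ * v x ^ 3 + β * v x * u x ^ 2) * φ x)

/-! ### The function `sech` -/

def sg (x : ℝ) : ℝ := (cosh x)⁻¹

def sg' (x : ℝ) : ℝ := -sinh x / cosh x ^ 2

theorem sg_deriv (x : ℝ) : HasDerivAt sg (sg' x) x :=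
  (hasDerivAt_cosh x).inv (cosh_pos x).ne'

theorem deriv_sg : deriv sg = sg' := funext fun x => (sg_deriv x).deriv

theorem sg_smooth : ContDiff ℝ 1 sg := by
  unfold sg
  exact contDiff_cosh.inv fun x => (cosh_pos x).ne'

theorem sg'_sq (x : ℝ) : sg' x ^ 2 = sg x ^ 2 - sg x ^ 4 := by
  unfold sg sg'
  have h := cosh_pos x
  have h2 := cosh_sq x
  field_simp
  linarith

theorem sg_pos (x : ℝ) : 0 < sg x := inv_pos.2 (cosh_pos x)

theorem sg_le_one (x : ℝ) : sg x ≤ 1 := inv_le_one_of_one_le₀ (one_le_cosh x)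

theorem sg_sq_le (x : ℝ) : sg x ^ 2 ≤ (1 + x ^ 2)⁻¹ := by
  unfold sg
  rw [inv_pow]
  refine inv_anti₀ (by positivity) ?_
  rw [cosh_sq, add_comm]
  have h : x ^ 2 ≤ sinh x ^ 2 := by
    rcases le_total 0 x with h | h
    · have := self_le_sinh_iff.2 h
      gcongr
    · have h1 : -x ≤ sinh (-x) := self_le_sinh_iff.2 (by linarith)
      rw [sinh_neg] at h1
      nlinarith
  linarith

theorem int_sg {k : ℕ} (hk : 2 ≤ k) : Integrable fun x => sg x ^ k := by
  refine Integrable.mono' integrable_inv_one_add_sq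
    (sg_smooth.continuous.pow k).aestronglyMeasurable (Eventually.of_forall fun x => ?_)
  have h0 := (sg_pos x).le
  rw [Real.norm_of_nonneg (by positivity)]
  exact (pow_le_pow_of_le_one h0 (sg_le_one x) hk).trans (sg_sq_le x)

/-- The hyperbolic tangent. -/
def T (x : ℝ) : ℝ := sinh x / cosh x

theorem T_sq (x : ℝ) : 1 - T x ^ 2 = sg x ^ 2 := by
  unfold T sg
  have h := cosh_pos x
  have h2 := cosh_sq x
  field_simp
  linarith

theorem T_deriv (x : ℝ) : HasDerivAt T (sg x ^ 2) x := by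
  refine ((hasDerivAt_sinh x).div (hasDerivAt_cosh x) (cosh_pos x).ne').congr_deriv ?_
  unfold sg
  have h := cosh_pos x
  have h2 := cosh_sq x
  field_simp
  linarith

theorem T_top : Tendsto T atTop (𝓝 1) := by
  have h1 : ∀ x, T x = 1 - exp (-x) * sg x := by
    intro x
    unfold T sg
    have h := cosh_pos x
    have h2 : exp (-x) = cosh x - sinh x := by
      rw [cosh_eq, sinh_eq]
      ring
    rw [h2]
    field_simp
    ring
  have h2 : Tendsto (fun x => exp (-x) * sg x) atTop (𝓝 0) := by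
    refine squeeze_zero (g := fun x => exp (-x)) (fun x => ?_) (fun x => ?_)
      tendsto_exp_neg_atTop_nhds_zero
    · have := sg_pos x
      positivity
    · have := sg_le_one x
      have h0 := exp_pos (-x)
      nlinarith
  have h3 := h2.const_sub 1
  rw [sub_zero] at h3
  exact h3.congr fun x => (h1 x).symm

theorem T_bot : Tendsto T atBot (𝓝 (-1)) := by
  have h1 : ∀ x, T x = -T (-x) := by
    intro x
    unfold T
    rw [sinh_neg, cosh_neg]
    ring
  have h2 := (T_top.comp tendsto_neg_atBot_atTop).neg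
  exact h2.congr fun x => (h1 x).symm

theorem I2 : ∫ x, sg x ^ 2 = 2 := by
  rw [integral_of_hasDerivAt_of_tendsto T_deriv (int_sg le_rfl) T_bot T_top]
  norm_num

theorem I4 : ∫ x, sg x ^ 4 = 4 / 3 := by
  have hd : ∀ x, HasDerivAt (fun x => T x - T x ^ 3 / 3) (sg x ^ 4) x := by
    intro x
    refine ((T_deriv x).sub (((T_deriv x).pow 3).div_const 3)).congr_deriv ?_
    have := T_sq x
    norm_num
    linear_combination (sg x ^ 2) * this
  have h1 : Tendsto (fun x => T x - T x ^ 3 / 3) atBot (𝓝 (-1 - (-1) ^ 3 / 3)) :=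
    T_bot.sub ((T_bot.pow 3).div_const 3)
  have h2 : Tendsto (fun x => T x - T x ^ 3 / 3) atTop (𝓝 (1 - 1 ^ 3 / 3)) :=
    T_top.sub ((T_top.pow 3).div_const 3)
  rw [integral_of_hasDerivAt_of_tendsto hd (int_sg (by norm_num)) h1 h2]
  norm_num

theorem I6 : ∫ x, sg x ^ 6 = 16 / 15 := by
  have hd : ∀ x, HasDerivAt (fun x => T x - 2 / 3 * T x ^ 3 + T x ^ 5 / 5) (sg x ^ 6) x := by
    intro x
    refine (((T_deriv x).sub (((T_deriv x).pow 3).const_mul (2 / 3))).add
      (((T_deriv x).pow 5).div_const 5)).congr_deriv ?_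
    have := T_sq x
    norm_num
    linear_combination (sg x ^ 2) * (1 - T x ^ 2 + sg x ^ 2) * this
  have h1 : Tendsto (fun x => T x - 2 / 3 * T x ^ 3 + T x ^ 5 / 5) atBot
      (𝓝 (-1 - 2 / 3 * (-1) ^ 3 + (-1) ^ 5 / 5)) :=
    (T_bot.sub ((T_bot.pow 3).const_mul _)).add ((T_bot.pow 5).div_const 5)
  have h2 : Tendsto (fun x => T x - 2 / 3 * T x ^ 3 + T x ^ 5 / 5) atTop
      (𝓝 (1 - 2 / 3 * 1 ^ 3 + 1 ^ 5 / 5)) :=
    (T_top.sub ((T_top.pow 3).const_mul _)).add ((T_top.pow 5).div_const 5)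
  rw [integral_of_hasDerivAt_of_tendsto hd (int_sg (by norm_num)) h1 h2]
  norm_num

/-- Integrals of combinations. -/
theorem comb (a b c : ℝ) : ∫ x, (a * sg x ^ 2 + b * sg x ^ 4 + c * sg x ^ 6)
    = a * 2 + b * (4 / 3) + c * (16 / 15) := by
  have i2 := (int_sg (k := 2) le_rfl).const_mul a
  have i4 := (int_sg (k := 4) (by norm_num)).const_mul b
  have i6 := (int_sg (k := 6) (by norm_num)).const_mul c
  have e1 : ∫ x, (a * sg x ^ 2 + b * sg x ^ 4 + c * sg x ^ 6)
    = (∫ x, (a * sg x ^ 2 + b * sg x ^ 4)) + ∫ x, c * sg x ^ 6 := integral_add (i2.add i4) i6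
  have e2 : ∫ x, (a * sg x ^ 2 + b * sg x ^ 4)
    = (∫ x, a * sg x ^ 2) + ∫ x, b * sg x ^ 4 := integral_add i2 i4
  rw [e1, e2, integral_const_mul, integral_const_mul, integral_const_mul, I2, I4, I6]

theorem comb' {f : ℝ → ℝ} (a b c : ℝ) (h : ∀ x, f x = a * sg x ^ 2 + b * sg x ^ 4 + c * sg x ^ 6) :
    ∫ x, f x = a * 2 + b * (4 / 3) + c * (16 / 15) := by
  rw [← comb]
  exact integral_congr_ae (Eventually.of_forall h)

theorem int_comb {f : ℝ → ℝ} (a b c d : ℝ)
    (h : ∀ x, f x = a * sg x ^ 2 + b * sg x ^ 4 + c * sg x ^ 6 + d * sg x ^ 8) :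
    Integrable f := by
  have i2 := (int_sg (k := 2) le_rfl).const_mul a
  have i4 := (int_sg (k := 4) (by norm_num)).const_mul b
  have i6 := (int_sg (k := 6) (by norm_num)).const_mul c
  have i8 := (int_sg (k := 8) (by norm_num)).const_mul d
  exact (((i2.add i4).add i6).add i8).congr (Eventually.of_forall fun x => (h x).symm)

theorem sg'_cont : Continuous sg' := by
  unfold sg'
  exact continuous_sinh.neg.div (continuous_cosh.pow 2) fun x => by
    have := cosh_pos x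
    positivity

/-- Multiples of `sech` are in `H¹`. -/
theorem sg_H1 (t : ℝ) : IsH10 univ (fun x => t * sg x) (fun x => t * sg' x) := by
  have hd : deriv (fun x => t * sg x) = fun x => t * sg' x :=
    funext fun x => ((sg_deriv x).const_mul t).deriv
  rw [← hd]
  refine isH10_line (contDiff_const.mul sg_smooth) ?_ ?_
  · refine (memLp_two_iff_integrable_sq
      (continuous_const.mul sg_smooth.continuous).aestronglyMeasurable).2 ?_
    exact int_comb (t ^ 2) 0 0 0 fun x => by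
      show (t * sg x) ^ 2 = _
      ring
  · rw [hd]
    refine (memLp_two_iff_integrable_sq
      (continuous_const.mul sg'_cont).aestronglyMeasurable).2 ?_
    exact int_comb (t ^ 2) (-t ^ 2) 0 0 fun x => by
      show (t * sg' x) ^ 2 = _
      rw [mul_pow, sg'_sq]
      ring

theorem cube_H1 : IsH10 univ (fun x => sg x ^ 3) (fun x => 3 * sg x ^ 2 * sg' x) := by
  have hd : deriv (fun x => sg x ^ 3) = fun x => 3 * sg x ^ 2 * sg' x :=
    funext fun x => by
      have h : HasDerivAt (fun x => sg x ^ 3) (3 * sg x ^ 2 * sg' x) x := by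
        refine ((sg_deriv x).pow 3).congr_deriv ?_
        norm_num
      exact h.deriv
  rw [← hd]
  refine isH10_line (sg_smooth.pow 3) ?_ ?_
  · refine (memLp_two_iff_integrable_sq
      (sg_smooth.continuous.pow 3).aestronglyMeasurable).2 ?_
    exact int_comb 0 0 1 0 fun x => by
      show (sg x ^ 3) ^ 2 = _
      ring
  · rw [hd]
    refine (memLp_two_iff_integrable_sq ((continuous_const.mul
      (sg_smooth.continuous.pow 2)).mul sg'_cont).aestronglyMeasurable).2 ?_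
    exact int_comb 0 0 9 (-9) fun x => by
      show (3 * sg x ^ 2 * sg' x) ^ 2 = _
      rw [mul_pow, sg'_sq]
      ring

theorem not_zero {t : ℝ} (ht : t ≠ 0) : ¬ (fun x => t * sg x) =ᵐ[volume] 0 := by
  intro h
  have h1 : ∫ x, (t * sg x) ^ 2 = 0 := by
    have h2 : ∀ᵐ x ∂(volume : Measure ℝ), (t * sg x) ^ 2 = 0 := by
      filter_upwards [h] with x hx
      have hx' : t * sg x = 0 := hx
      rw [hx']
      norm_num
    rw [integral_congr_ae h2]
    simp
  rw [comb' (t ^ 2) 0 0 (fun x => by ring)] at h1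
  have : 0 < t ^ 2 := by positivity
  linarith

/-! ### The lower bound -/

theorem lower {u U v V : ℝ → ℝ} (h : InN 1 16 4 1 5 u U v V) :
    4 / 3 ≤ En 1 16 4 1 5 u U v V := by
  obtain ⟨hu, hv, hu0, hv0, h1, h2⟩ := h
  obtain ⟨-, iu, gu⟩ := hu.gn
  obtain ⟨-, iv, -⟩ := hv.gn
  have mu := hu.memu
  have mv := hv.memu
  rw [Measure.restrict_univ] at mu mv
  have iuv : Integrable fun x => u x ^ 2 * v x ^ 2 := by
    refine Integrable.mono' (iu.add iv) ((mu.1.pow 2).mul (mv.1.pow 2))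
      (Eventually.of_forall fun x => ?_)
    rw [Real.norm_of_nonneg (by positivity)]
    show u x ^ 2 * v x ^ 2 ≤ u x ^ 4 + v x ^ 4
    nlinarith [sq_nonneg (u x ^ 2 - v x ^ 2), sq_nonneg (u x ^ 2), sq_nonneg (v x ^ 2)]
  set A := ∫ x, u x ^ 4 with hA
  set B := ∫ x, u x ^ 2 * v x ^ 2 with hB
  set D := ∫ x, v x ^ 4 with hD
  have e1 : ∫ x, (1 * u x ^ 4 + 4 * u x ^ 2 * v x ^ 2) = A + 4 * B := by
    have : ∫ x, (u x ^ 4 + 4 * (u x ^ 2 * v x ^ 2)) = A + ∫ x, 4 * (u x ^ 2 * v x ^ 2) :=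
      integral_add iu (iuv.const_mul 4)
    rw [integral_const_mul] at this
    rw [← hB] at this
    rw [← this]
    refine integral_congr_ae (Eventually.of_forall fun x => ?_)
    show 1 * u x ^ 4 + 4 * u x ^ 2 * v x ^ 2 = u x ^ 4 + 4 * (u x ^ 2 * v x ^ 2)
    ring
  have e2 : ∫ x, (16 * v x ^ 4 + 4 * u x ^ 2 * v x ^ 2) = 16 * D + 4 * B := by
    have : ∫ x, (16 * v x ^ 4 + 4 * (u x ^ 2 * v x ^ 2))
        = (∫ x, 16 * v x ^ 4) + ∫ x, 4 * (u x ^ 2 * v x ^ 2) :=
      integral_add (iv.const_mul 16) (iuv.const_mul 4)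
    rw [integral_const_mul, integral_const_mul, ← hB, ← hD] at this
    rw [← this]
    refine integral_congr_ae (Eventually.of_forall fun x => ?_)
    show 16 * v x ^ 4 + 4 * u x ^ 2 * v x ^ 2 = 16 * v x ^ 4 + 4 * (u x ^ 2 * v x ^ 2)
    ring
  have e3 : ∫ x, (1 * u x ^ 4 + 2 * 4 * u x ^ 2 * v x ^ 2 + 16 * v x ^ 4)
      = A + 8 * B + 16 * D := by
    have h3 : ∫ x, (u x ^ 4 + 8 * (u x ^ 2 * v x ^ 2) + 16 * v x ^ 4)
        = (∫ x, (u x ^ 4 + 8 * (u x ^ 2 * v x ^ 2))) + ∫ x, 16 * v x ^ 4 :=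
      integral_add (iu.add (iuv.const_mul 8)) (iv.const_mul 16)
    have h4 : ∫ x, (u x ^ 4 + 8 * (u x ^ 2 * v x ^ 2)) = A + ∫ x, 8 * (u x ^ 2 * v x ^ 2) :=
      integral_add iu (iuv.const_mul 8)
    rw [integral_const_mul, ← hB] at h4
    rw [integral_const_mul, h4, ← hD] at h3
    rw [← h3]
    refine integral_congr_ae (Eventually.of_forall fun x => ?_)
    show 1 * u x ^ 4 + 2 * 4 * u x ^ 2 * v x ^ 2 + 16 * v x ^ 4
      = u x ^ 4 + 8 * (u x ^ 2 * v x ^ 2) + 16 * v x ^ 4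
    ring
  -- Cauchy-Schwarz
  have cs : (A + 4 * B) ^ 2 ≤ A * (A + 8 * B + 16 * D) := by
    have key : ∀ t : ℝ, 0 ≤ (1 - t) ^ 2 * A + 8 * (1 - t) * B + 16 * D := by
      intro t
      have h3 : ∫ x, ((1 - t) * u x ^ 2 + 4 * v x ^ 2) ^ 2
          = (1 - t) ^ 2 * A + 8 * (1 - t) * B + 16 * D := by
        have h3 : ∫ x, ((1 - t) ^ 2 * u x ^ 4 + 8 * (1 - t) * (u x ^ 2 * v x ^ 2) + 16 * v x ^ 4)
            = (∫ x, ((1 - t) ^ 2 * u x ^ 4 + 8 * (1 - t) * (u x ^ 2 * v x ^ 2)))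
              + ∫ x, 16 * v x ^ 4 :=
          integral_add ((iu.const_mul _).add (iuv.const_mul _)) (iv.const_mul 16)
        have h4 : ∫ x, ((1 - t) ^ 2 * u x ^ 4 + 8 * (1 - t) * (u x ^ 2 * v x ^ 2))
            = (∫ x, (1 - t) ^ 2 * u x ^ 4) + ∫ x, 8 * (1 - t) * (u x ^ 2 * v x ^ 2) :=
          integral_add (iu.const_mul _) (iuv.const_mul _)
        rw [integral_const_mul, integral_const_mul, ← hA, ← hB] at h4
        rw [integral_const_mul, h4, ← hD] at h3
        rw [← h3]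
        refine integral_congr_ae (Eventually.of_forall fun x => ?_)
        show ((1 - t) * u x ^ 2 + 4 * v x ^ 2) ^ 2
          = (1 - t) ^ 2 * u x ^ 4 + 8 * (1 - t) * (u x ^ 2 * v x ^ 2) + 16 * v x ^ 4
        ring
      rw [← h3]
      exact integral_nonneg fun x => by positivity
    have hA0 : 0 ≤ A := integral_nonneg fun x => by positivity
    rcases hA0.eq_or_lt with h3 | h3
    · have k1 := key 0
      have hB0 : B = 0 := by
        by_contra hne
        have k2 := key (1 + (2 * D + 1) / B)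
        have e : (1 - (1 + (2 * D + 1) / B)) * B = -(2 * D + 1) := by
          field_simp
          ring
        rw [← h3, mul_zero, zero_add, mul_assoc, e] at k2
        linarith
      rw [← h3, hB0]
      norm_num
    · have k1 := key (1 + 4 * B / A)
      have e : (1 - (1 + 4 * B / A)) ^ 2 * A + 8 * (1 - (1 + 4 * B / A)) * B + 16 * D
          = (16 * D * A - 16 * B ^ 2) / A := by
        field_simp
        ring
      rw [e, div_nonneg_iff] at k1
      rcases k1 with ⟨k1, -⟩ | ⟨-, k1⟩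
      · nlinarith
      · linarith
  unfold En
  rw [e3]
  rw [e1] at h1
  rw [e2] at h2
  have hform : Form 1 u U = ∫ x, (U x ^ 2 + u x ^ 2) := by
    unfold Form
    simp only [one_mul]
  have hX : 0 < A + 4 * B := by
    rw [← h1, hform]
    have mU := hu.memG
    rw [Measure.restrict_univ] at mU
    have h3 : ∫ x, (U x ^ 2 + u x ^ 2) = (∫ x, U x ^ 2) + ∫ x, u x ^ 2 :=
      integral_add mU.integrable_sq mu.integrable_sq
    rw [h3]
    have h4 : 0 ≤ ∫ x, U x ^ 2 := integral_nonneg fun x => by positivity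
    have h5 : 0 ≤ ∫ x, u x ^ 2 := integral_nonneg fun x => by positivity
    rcases h5.eq_or_lt with h6 | h6
    · exfalso
      apply hu0
      have h7 := (integral_eq_zero_iff_of_nonneg (fun x => by positivity)
        mu.integrable_sq).1 h6.symm
      filter_upwards [h7] with x hx
      have : u x ^ 2 = 0 := hx
      simpa using this
    · linarith
  rw [← hform, h1] at gu
  rw [h1, h2]
  have h3 : 16 / 3 ≤ A + 8 * B + 16 * D := by
    have hA0 : 0 ≤ A := integral_nonneg fun x => by positivity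
    have h4 : (A + 4 * B) ^ 2 ≤ 3 / 16 * (A + 4 * B) ^ 2 * (A + 8 * B + 16 * D) := by
      have hC : 0 ≤ A + 8 * B + 16 * D := by
        rw [← e3]
        exact integral_nonneg fun x => by positivity
      refine cs.trans ?_
      gcongr
      linarith
    have h5 : 0 < (A + 4 * B) ^ 2 := by positivity
    by_contra hcon
    push Not at hcon
    nlinarith
  linarith

/-- For `N = 1`, `Ω = ℝ` there are `μ₁, μ₂, λ₁, λ₂ > 0` and `β ≥ √(μ₁ μ₂)` for which `E_β` attains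
its minimum on `𝒩_β` at a pair which is not a weak solution of the system. -/
theorem result : ∃ μ₁ μ₂ β l₁ l₂ : ℝ, 0 < μ₁ ∧ 0 < μ₂ ∧ 0 < l₁ ∧ 0 < l₂ ∧ √(μ₁ * μ₂) ≤ β ∧
    ∃ u U v V : ℝ → ℝ, InN μ₁ μ₂ β l₁ l₂ u U v V ∧
      (∀ u' U' v' V' : ℝ → ℝ, InN μ₁ μ₂ β l₁ l₂ u' U' v' V' →
        En μ₁ μ₂ β l₁ l₂ u U v V ≤ En μ₁ μ₂ β l₁ l₂ u' U' v' V') ∧
      ¬ IsWeakSol μ₁ μ₂ β l₁ l₂ u U v V := by
  have f1 : Form 1 (fun x => 1 * sg x) (fun x => 1 * sg' x) = 8 / 3 := by
    unfold Form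
    rw [comb' 2 (-1) 0 (fun x => by rw [mul_pow, sg'_sq]; ring)]
    norm_num
  have f2 : Form 5 (fun x => 1 / 2 * sg x) (fun x => 1 / 2 * sg' x) = 8 / 3 := by
    unfold Form
    rw [comb' (3 / 2) (-1 / 4) 0 (fun x => by rw [mul_pow, sg'_sq]; ring)]
    norm_num
  refine ⟨1, 16, 4, 1, 5, by norm_num, by norm_num, by norm_num, by norm_num, ?_,
    fun x => 1 * sg x, fun x => 1 * sg' x, fun x => 1 / 2 * sg x, fun x => 1 / 2 * sg' x,
    ⟨sg_H1 _, sg_H1 _, not_zero one_ne_zero, not_zero (by norm_num), ?_, ?_⟩, ?_, ?_⟩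
  · rw [Real.sqrt_le_left (by norm_num)]
    norm_num
  · rw [f1, comb' 0 2 0 (fun x => by ring)]
    norm_num
  · rw [f2, comb' 0 2 0 (fun x => by ring)]
    norm_num
  · intro u' U' v' V' h
    refine le_trans (le_of_eq ?_) (lower h)
    unfold En
    rw [f1, f2, comb' 0 4 0 (fun x => by ring)]
    norm_num
  · rintro ⟨-, h⟩
    have h1 := h _ _ cube_H1
    rw [comb' 0 4 (-3 / 2) (fun x => by
        have := sg'_sq x
        linear_combination (3 / 2 * sg x ^ 2) * this),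
      comb' 0 0 4 (fun x => by ring)] at h1
    norm_num at h1

end

end Pool.Agent.Results.MP_a38b16_an.NonCritical
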